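import Pool.Agent.Y166.CS.Stm2

/-! # Project CS: two different roots, no quasihomogeneous surface -/

set_option autoImplicit false

namespace Pool.Agent.Y748.CS

open MvPolynomial Pool.Agent.Y166.CS Pool.Agent.Results.MP_c4712b_ag.ManyNodesFamily

/-- scaled singular points are singular -/
theorem sing_scale {q : Poly3} {w : Fin 3 → ℕ} {d : ℤ}
    (h : ∀ t : ℂ, t ≠ 0 → ∀ x : Fin 3 → ℂ, eval (fun i => t ^ (w i) * x i) q = t ^ d * eval x q)
    (a : Fin 3 → ℂ) (hs : IsSingularPt q a) (t : ℂ) (ht : t ≠ 0) :
    IsSingularPt q (fun i => t ^ (w i) * a i) := by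
  have hpoly : aeval (fun i => C (t ^ (w i)) * X i) q = C (t ^ d) * q := by
    apply MvPolynomial.funext
    intro x
    rw [eval_aeval, map_mul, eval_C, ← h t ht x]
    congr 2
    funext i
    simp
  refine ⟨by rw [h t ht, hs.1, mul_zero], fun i => ?_⟩
  have h1 := congrArg (fun g => eval a (pderiv i g)) hpoly
  simp only [pderiv_aeval, map_sum, map_mul, Derivation.leibniz, smul_eq_mul, pderiv_C, mul_zero,
    add_zero, eval_aeval, eval_C, eval_X, hs.2 i] at h1
  rw [Finset.sum_eq_single i] at h1
  · simp only [pderiv_X_self, map_one, mul_one] at h1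
    have hne : (t ^ (w i) : ℂ) ≠ 0 := pow_ne_zero _ ht
    simpa [hne, hs.2 i] using h1
  · intro j _ hji
    rw [pderiv_X_of_ne hji]
    simp
  · intro hi; exact absurd (Finset.mem_univ i) hi

theorem eval_curve (φ : Fin 3 → Polynomial ℂ) (g : Poly3) (t : ℂ) :
    (aeval φ g).eval t = eval (fun i => (φ i).eval t) g := by
  induction g using MvPolynomial.induction_on with
  | C a => simp
  | add p q hp hq => simp only [map_add, Polynomial.eval_add, hp, hq]
  | mul_X p i hp => simp only [map_mul, Polynomial.eval_mul, hp, aeval_X, eval_X]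

theorem done (hS : S_SING) : S_CONN := by
  intro f hf0 k hk c c' hne hc hc' q hq
  constructor
  intro Ψ
  obtain ⟨F, G, hF, hG, hGF, hFG⟩ := iso_data Ψ
  obtain ⟨w, hw, d, h⟩ := hq
  have claim : ∀ b, IsSingularPt q b → eval b (G 0) = eval (0 : Fin 3 → ℂ) (G 0) := by
    intro b hb
    set x : Polynomial ℂ :=
      aeval (fun i => Polynomial.C (b i) * Polynomial.X ^ (w i)) (G 0) with hx
    have hxe : ∀ t : ℂ, x.eval t = eval (fun i => t ^ (w i) * b i) (G 0) := by
      intro t
      rw [hx, eval_curve]
      congr 2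
      funext i
      rw [Polynomial.eval_mul, Polynomial.eval_C, Polynomial.eval_pow, Polynomial.eval_X,
        mul_comm]
    have hroot : ∀ t : ℂ, t ≠ 0 → f.eval (x.eval t) = 0 := by
      intro t ht
      have h1 := sing_push hG hFG _ (sing_scale h b hb t ht)
      have h2 := ((hS f k hk _).1 h1).1
      rw [hxe]
      exact h2
    have hcomp : f.comp x = 0 := by
      apply Polynomial.eq_zero_of_infinite_isRoot
      apply (Set.Finite.infinite_compl (Set.finite_singleton (0 : ℂ))).mono
      intro t ht
      show (f.comp x).eval t = 0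
      rw [Polynomial.eval_comp]
      exact hroot t ht
    have hconst : x = Polynomial.C (x.coeff 0) := by
      rcases Polynomial.comp_eq_zero_iff.1 hcomp with h1 | h1
      · exact absurd h1 hf0
      · exact h1.2
    have e1 : x.eval 1 = eval b (G 0) := by
      rw [hxe]
      congr 2
      funext i
      rw [one_pow, one_mul]
    have e0 : x.eval 0 = eval (0 : Fin 3 → ℂ) (G 0) := by
      rw [hxe]
      congr 2
      funext i
      rw [zero_pow (hw i).ne', zero_mul]
      rfl
    rw [← e1, ← e0, hconst, Polynomial.eval_C, Polynomial.eval_C]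
  have hpt : ∀ z : ℂ, f.eval z = 0 → z = eval (0 : Fin 3 → ℂ) (G 0) := by
    intro z hz
    have h1 : IsSingularPt (surf f k) (spt z) := by
      rw [hS f k hk]
      refine ⟨?_, ?_, ?_⟩
      · simpa [spt] using hz
      · simp [spt]
      · simp [spt]
    have h2 := claim _ (sing_push hF hGF (spt z) h1)
    have h3 := congrFun (pt_back hGF (spt z) h1.1) 0
    have h4 : spt z 0 = z := by simp [spt]
    rw [← h2, ← h4]
    exact h3.symm
  exact hne ((hpt c hc).trans (hpt c' hc').symm)

end Pool.Agent.Y748.CS
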